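import Pool.Agent.Helper68_BAN.Stmt2

set_option autoImplicit false

/-!
# Squad BAN, module BODY: from a convex body to the standing data
-/

namespace Pool.Agent.BAN.H63

open MeasureTheory Filter Topology Set
open scoped NNReal

section
variable {X V : Type} [NormedAddCommGroup X] [InnerProductSpace ℝ X]
  [NormedAddCommGroup V] [InnerProductSpace ℝ V]

/-- A chart of the section `B ∩ ν^⊥`. -/
structure Chart (B : Set X) (K : Set V) (ν : X) where
  g : V →ᵃ[ℝ] X
  G : X →ᵃ[ℝ] V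
  left : ∀ v, G (g v) = v
  mem : ∀ v ∈ K, g v ∈ B ∧ inner ℝ ν (g v) = 0
  surj : ∀ y ∈ B, inner ℝ ν y = 0 → ∃ v ∈ K, g v = y

variable {B : Set X} {K : Set V} {ν : X}

theorem Chart.decomp (c : Chart B K ν) (v : V) : c.g v = c.g.linear v + c.g 0 := by
  have := congrFun (AffineMap.decomp c.g) v
  simpa using this

theorem Chart.orth (c : Chart B K ν) {r : ℝ} (hr : 0 < r) (hK : Metric.closedBall (0 : V) r ⊆ K)
    (v : V) : inner ℝ ν (c.g.linear v) = 0 := by
  have h0 : (0 : V) ∈ K := hK (by simp [hr.le])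
  have h1 := (c.mem 0 h0).2
  by_cases hv : v = 0
  · simp [hv]
  have hvn : 0 < ‖v‖ := norm_pos_iff.2 hv
  have h2 : (r / ‖v‖) • v ∈ K := by
    apply hK
    rw [mem_closedBall_zero_iff, norm_smul, Real.norm_of_nonneg (by positivity),
      div_mul_cancel₀ _ hvn.ne']
  have h3 := (c.mem _ h2).2
  rw [c.decomp, inner_add_right, h1, add_zero, map_smul, inner_smul_right] at h3
  rcases mul_eq_zero.1 h3 with h | h
  · exact absurd h (by positivity)
  · exact h

theorem Chart.orth' (c : Chart B K ν) {r : ℝ} (hr : 0 < r) (hK : Metric.closedBall (0 : V) r ⊆ K)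
    (v : V) : inner ℝ ν (c.g v) = 0 := by
  have h0 : (0 : V) ∈ K := hK (by simp [hr.le])
  rw [c.decomp, inner_add_right, c.orth hr hK, (c.mem 0 h0).2, add_zero]

theorem Chart.bound (c : Chart B K ν) {r D : ℝ} (hr : 0 < r)
    (hK : Metric.closedBall (0 : V) r ⊆ K) (hD : ∀ x ∈ B, ‖x‖ ≤ D) (v : V) :
    ‖c.g.linear v‖ ≤ 2 * D / r * ‖v‖ := by
  have h0 : (0 : V) ∈ K := hK (by simp [hr.le])
  by_cases hv : v = 0
  · simp [hv]
  have hvn : 0 < ‖v‖ := norm_pos_iff.2 hv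
  have h2 : (r / ‖v‖) • v ∈ K := by
    apply hK
    rw [mem_closedBall_zero_iff, norm_smul, Real.norm_of_nonneg (by positivity),
      div_mul_cancel₀ _ hvn.ne']
  have h3 := hD _ (c.mem _ h2).1
  have h4 := hD _ (c.mem _ h0).1
  have h5 : (r / ‖v‖) * ‖c.g.linear v‖ ≤ 2 * D := by
    have h6 : ‖c.g.linear ((r / ‖v‖) • v)‖ = (r / ‖v‖) * ‖c.g.linear v‖ := by
      rw [map_smul, norm_smul, Real.norm_of_nonneg (by positivity)]
    rw [← h6]
    have h7 : c.g.linear ((r / ‖v‖) • v) = c.g ((r / ‖v‖) • v) - c.g 0 := by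
      rw [c.decomp ((r / ‖v‖) • v), add_sub_cancel_right]
    rw [h7]
    calc _ ≤ ‖c.g ((r / ‖v‖) • v)‖ + ‖c.g 0‖ := norm_sub_le _ _
      _ ≤ 2 * D := by linarith
  have h8 : ‖c.g.linear v‖ ≤ 2 * D / (r / ‖v‖) := by
    rw [le_div_iff₀ (by positivity)]
    linarith
  calc ‖c.g.linear v‖ ≤ 2 * D / (r / ‖v‖) := h8
    _ = 2 * D / r * ‖v‖ := by field_simp

theorem Chart.inj (c : Chart B K ν) {v w : V} (h : c.g v = c.g w) : v = w := by
  rw [← c.left v, h, c.left]

theorem Chart.mem_iff (c : Chart B K ν) {r : ℝ} (hr : 0 < r)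
    (hK : Metric.closedBall (0 : V) r ⊆ K) (v : V) : c.g v ∈ B ↔ v ∈ K := by
  constructor
  · intro h
    obtain ⟨w, hw, hgw⟩ := c.surj _ h (c.orth' hr hK v)
    rw [← c.inj hgw]
    exact hw
  · intro h
    exact (c.mem v h).1

theorem Chart.gauge_eq (c : Chart B K ν) {r : ℝ} (hr : 0 < r)
    (hK : Metric.closedBall (0 : V) r ⊆ K) (c0 v : V) :
    gauge ((fun x => x - c.g c0) '' B) (c.g.linear v) = gauge ((fun x => x - c0) '' K) v := by
  rw [gauge_def', gauge_def']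
  congr 1
  ext t
  simp only [mem_ofPred_eq, mem_Ioi, and_congr_right_iff]
  intro ht
  have h1 : c.g (t⁻¹ • v + c0) = t⁻¹ • c.g.linear v + c.g c0 := by
    rw [c.decomp, c.decomp c0, map_add, map_smul]
    abel
  constructor
  · rintro ⟨x, hx, hxv⟩
    simp only at hxv
    have h2 : x = c.g (t⁻¹ • v + c0) := by
      rw [h1, ← hxv, sub_add_cancel]
    rw [h2, c.mem_iff hr hK] at hx
    exact ⟨_, hx, by simp⟩
  · rintro ⟨x, hx, hxv⟩
    simp only at hxv
    have h2 : x = t⁻¹ • v + c0 := by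
      rw [← hxv, sub_add_cancel]
    rw [h2, ← c.mem_iff hr hK, h1] at hx
    exact ⟨_, hx, by simp⟩

theorem Chart.gauge_le (c : Chart B K ν) (hB0 : (0 : X) ∈ B) {D ρ : ℝ}
    (hKD : ∀ v ∈ K, ‖v‖ ≤ D) (hD : 0 < D) (hρ : 0 < ρ) (c0 : V) (hc0 : c0 ∈ K)
    (hball : Metric.closedBall c0 ρ ⊆ K) :
    gauge B (c.g c0) ≤ (1 + ρ / (2 * D))⁻¹ := by
  obtain ⟨p, hp, hgp⟩ := c.surj 0 hB0 (by simp)
  set η : ℝ := ρ / (2 * D) with hη
  have hη0 : 0 < η := by positivity
  have hy : c0 + η • (c0 - p) ∈ K := by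
    apply hball
    rw [mem_closedBall_iff_norm, add_sub_cancel_left, norm_smul, Real.norm_of_nonneg hη0.le]
    have h1 : ‖c0 - p‖ ≤ 2 * D := by
      calc _ ≤ ‖c0‖ + ‖p‖ := norm_sub_le _ _
        _ ≤ 2 * D := by linarith [hKD _ hc0, hKD _ hp]
    calc η * ‖c0 - p‖ ≤ η * (2 * D) := by gcongr
      _ = ρ := by rw [hη]; field_simp
  have h2 : c.g c0 = (1 + η)⁻¹ • c.g (c0 + η • (c0 - p)) := by
    have h3 : c.g 0 = - c.g.linear p := by
      have := c.decomp p
      rw [hgp] at this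
      exact (neg_eq_of_add_eq_zero_right this.symm).symm
    rw [c.decomp c0, c.decomp (c0 + η • (c0 - p)), h3, map_add, map_smul, map_sub]
    have h4 : c.g.linear c0 + η • (c.g.linear c0 - c.g.linear p) + -c.g.linear p =
        (1 + η) • (c.g.linear c0 + -c.g.linear p) := by
      rw [add_smul, one_smul, sub_eq_add_neg]
      abel
    rw [h4, smul_smul, inv_mul_cancel₀ (by positivity), one_smul]
  rw [h2, gauge_smul_of_nonneg (by positivity)]
  have h5 := gauge_le_one_of_mem (c.mem _ hy).1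
  calc (1 + η)⁻¹ • gauge B (c.g (c0 + η • (c0 - p))) ≤ (1 + η)⁻¹ * 1 := by
        rw [smul_eq_mul]
        gcongr
    _ = _ := mul_one _

/-- orthogonal projection along a unit vector -/
noncomputable def RR (ν : X) : X →ₗ[ℝ] X where
  toFun := fun x => x - inner ℝ ν x • ν
  map_add' := by
    intro x y
    rw [inner_add_right, add_smul]
    abel
  map_smul' := by
    intro t x
    rw [inner_smul_right, RingHom.id_apply, smul_sub, smul_smul]

theorem RR_apply (ν x : X) : RR ν x = x - inner ℝ ν x • ν := rfl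

theorem RR_orth (hν : ‖ν‖ = 1) (x : X) : inner ℝ ν (RR ν x) = 0 := by
  rw [RR_apply, inner_sub_right, inner_smul_right, real_inner_self_eq_norm_sq, hν]
  ring

/-- The transition map. -/
noncomputable def MM {ν' : X} (c : Chart B K ν) (c' : Chart B K ν') : V →ᵃ[ℝ] V :=
  c.G.comp ((RR ν).toAffineMap.comp c'.g)

theorem MM_apply {ν' : X} (c : Chart B K ν) (c' : Chart B K ν') (x : V) :
    MM c c' x = c.G (RR ν (c'.g x)) := rfl

/-- value of a chart at a homothetic point -/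
theorem Chart.hom (c : Chart B K ν) {p : V} (hp : c.g p = 0) (t : ℝ) (y : V) :
    c.g (AffineMap.homothety p t y) = t • c.g y := by
  have h3 : c.g 0 = - c.g.linear p := by
    have := c.decomp p
    rw [hp] at this
    exact (neg_eq_of_add_eq_zero_right this.symm).symm
  rw [c.decomp (AffineMap.homothety p t y), c.decomp y, h3, AffineMap.homothety_apply,
    vsub_eq_sub, vadd_eq_add, map_add, map_smul, map_sub]
  rw [sub_eq_add_neg]
  abel

theorem upper (hBc : Convex ℝ B) {r D ε : ℝ} (hr : 0 < r)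
    (hBr : Metric.closedBall (0 : X) r ⊆ B) (hD : ∀ x ∈ B, ‖x‖ ≤ D) {ν' : X}
    (hν : ‖ν‖ = 1) (c : Chart B K ν) (c' : Chart B K ν') (hε : 0 < ε)
    (hε2 : ε * r = 2 * D * ‖ν - ν'‖) {p : V} (hp : c.g p = 0) (x : V) (hx : x ∈ K) :
    ∃ y ∈ K, RR ν (c'.g x) = c.g (AffineMap.homothety p (1 + ε) y) ∧
      MM c c' x = AffineMap.homothety p (1 + ε) y := by
  obtain ⟨h1, h2⟩ := c'.mem x hx
  set d : X := - (inner ℝ ν (c'.g x) • ν) with hd
  have hdn : ‖d‖ ≤ ε * r := by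
    rw [hd, norm_neg, norm_smul, hν, mul_one]
    have h3 : inner ℝ ν (c'.g x) = inner ℝ (ν - ν') (c'.g x) := by
      rw [inner_sub_left, h2, sub_zero]
    rw [h3, hε2]
    calc ‖inner ℝ (ν - ν') (c'.g x)‖ ≤ ‖ν - ν'‖ * ‖c'.g x‖ := norm_inner_le_norm _ _
      _ ≤ ‖ν - ν'‖ * D := by gcongr; exact hD _ h1
      _ ≤ 2 * D * ‖ν - ν'‖ := by
        have : 0 ≤ ‖ν - ν'‖ * D := mul_nonneg (norm_nonneg _) ((norm_nonneg _).trans (hD _ h1))
        linarith
  have hw : ε⁻¹ • d ∈ B := by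
    apply hBr
    rw [mem_closedBall_zero_iff, norm_smul, norm_inv, Real.norm_of_nonneg hε.le]
    rw [inv_mul_le_iff₀ hε]
    exact hdn
  have hu : (1 + ε)⁻¹ • RR ν (c'.g x) ∈ B := by
    have h4 : (1 + ε)⁻¹ • RR ν (c'.g x) = (1 + ε)⁻¹ • c'.g x + (ε * (1 + ε)⁻¹) • (ε⁻¹ • d) := by
      rw [smul_smul]
      have : ε * (1 + ε)⁻¹ * ε⁻¹ = (1 + ε)⁻¹ := by field_simp
      rw [this, ← smul_add, RR_apply, hd, sub_eq_add_neg]
    rw [h4]
    refine hBc h1 hw (by positivity) (by positivity) ?_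
    field_simp
  have ho : inner ℝ ν ((1 + ε)⁻¹ • RR ν (c'.g x)) = 0 := by
    rw [inner_smul_right, RR_orth hν, mul_zero]
  obtain ⟨y, hy, hgy⟩ := c.surj _ hu ho
  have h5 : RR ν (c'.g x) = c.g (AffineMap.homothety p (1 + ε) y) := by
    rw [c.hom hp, hgy, smul_smul, mul_inv_cancel₀ (by positivity), one_smul]
  refine ⟨y, hy, h5, ?_⟩
  rw [MM_apply, h5, c.left]

theorem lower (hBc : Convex ℝ B) {r D ε : ℝ} (hr : 0 < r)
    (hBr : Metric.closedBall (0 : X) r ⊆ B) (hD : ∀ x ∈ B, ‖x‖ ≤ D) {ν' : X}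
    (hν : ‖ν‖ = 1) (hν' : ‖ν'‖ = 1) (c : Chart B K ν) (c' : Chart B K ν') (hε : 0 < ε)
    (hε1 : ε ≤ 1) (hnear : ‖ν - ν'‖ ≤ 1)
    (hε2 : ε * r = 2 * D * ‖ν - ν'‖) {p : V} (hp : c.g p = 0) (y : V) (hy : y ∈ K) :
    ∃ x ∈ K, MM c c' x = AffineMap.homothety p (1 - ε) y := by
  obtain ⟨h1, h2⟩ := c.mem y hy
  have hip : 1 / 2 ≤ inner ℝ ν' ν := by
    have h3 : ‖ν - ν'‖ ^ 2 = 2 - 2 * inner ℝ ν' ν := by
      rw [@norm_sub_sq_real, hν, hν', real_inner_comm]
      ring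
    have h4 : ‖ν - ν'‖ ^ 2 ≤ 1 := by
      have := norm_nonneg (ν - ν')
      nlinarith
    linarith
  have hip0 : (inner ℝ ν' ν : ℝ) ≠ 0 := by
    intro h
    rw [h] at hip
    norm_num at hip
  set y' : X := (1 - ε) • c.g y with hy'
  set s : ℝ := - inner ℝ ν' y' / inner ℝ ν' ν with hs
  have hy'o : inner ℝ ν y' = 0 := by
    rw [hy', inner_smul_right, h2, mul_zero]
  have hD0 : 0 ≤ D := (norm_nonneg _).trans (hD _ h1)
  have hsn : ‖s • ν‖ ≤ ε * r := by
    rw [norm_smul, hν, mul_one, hs, norm_div, norm_neg, hε2, div_le_iff₀ (norm_pos_iff.2 hip0)]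
    have h3 : inner ℝ ν' y' = inner ℝ (ν' - ν) y' := by
      rw [inner_sub_left, hy'o, sub_zero]
    have h4 : ‖(inner ℝ ν' ν : ℝ)‖ = inner ℝ ν' ν := Real.norm_of_nonneg (by linarith)
    rw [h4, h3]
    calc ‖inner ℝ (ν' - ν) y'‖ ≤ ‖ν' - ν‖ * ‖y'‖ := norm_inner_le_norm _ _
      _ ≤ ‖ν' - ν‖ * D := by
        gcongr
        rw [hy', norm_smul, Real.norm_of_nonneg (by linarith)]
        calc (1 - ε) * ‖c.g y‖ ≤ 1 * D := by
              have := hD _ h1
              gcongr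
              linarith
          _ = D := one_mul D
      _ = 2 * D * ‖ν - ν'‖ * (1 / 2) := by
        rw [norm_sub_rev]
        ring
      _ ≤ 2 * D * ‖ν - ν'‖ * inner ℝ ν' ν := by
        have : 0 ≤ 2 * D * ‖ν - ν'‖ := by positivity
        gcongr
  have hw : ε⁻¹ • (s • ν) ∈ B := by
    apply hBr
    rw [mem_closedBall_zero_iff, norm_smul, norm_inv, Real.norm_of_nonneg hε.le]
    rw [inv_mul_le_iff₀ hε]
    exact hsn
  have hxB : y' + s • ν ∈ B := by
    have h4 : y' + s • ν = (1 - ε) • c.g y + ε • (ε⁻¹ • (s • ν)) := by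
      rw [smul_inv_smul₀ hε.ne', hy']
    rw [h4]
    exact hBc h1 hw (by linarith) hε.le (by ring)
  have hxo : inner ℝ ν' (y' + s • ν) = 0 := by
    have h6 : inner ℝ ν' (s • ν) = s * inner ℝ ν' ν := inner_smul_right _ _ _
    rw [inner_add_right, h6, hs, div_mul_cancel₀ _ hip0]
    ring
  obtain ⟨x, hx, hgx⟩ := c'.surj _ hxB hxo
  refine ⟨x, hx, ?_⟩
  have h5 : RR ν (c'.g x) = c.g (AffineMap.homothety p (1 - ε) y) := by
    rw [c.hom hp, hgx, RR_apply, inner_add_right, hy'o, inner_smul_right,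
      real_inner_self_eq_norm_sq, hν]
    simp [hy']
  rw [MM_apply, h5, c.left]

theorem lipschitz (hBc : Convex ℝ B) {r D C : ℝ} (hr : 0 < r)
    (hBr : Metric.closedBall (0 : X) r ⊆ B) (hD : ∀ x ∈ B, ‖x‖ ≤ D) (hrD : r ≤ D)
    (hKr : Metric.closedBall (0 : V) r ⊆ K) (hC : 0 ≤ C)
    {c0 : V} (hc0 : c0 ∈ K)
    (hcen : ∀ (M : V →ᵃ[ℝ] V) (p : V) (ε : ℝ), p ∈ K → 0 ≤ ε → ε ≤ 1 / 2 →
        (AffineMap.homothety p (1 - ε) '' K ⊆ M '' K) →
        (M '' K ⊆ AffineMap.homothety p (1 + ε) '' K) → ‖M c0 - c0‖ ≤ C * ε)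
    {ν' : X} (hν : ‖ν‖ = 1) (hν' : ‖ν'‖ = 1) (c : Chart B K ν) (c' : Chart B K ν') :
    ‖c.g c0 - c'.g c0‖ ≤ (2 * D / r * (C * (2 * D / r)) + D + 2 * D * (4 * D / r)) *
      ‖ν - ν'‖ := by
  have hD0 : 0 < D := hr.trans_le hrD
  have hB0 : (0 : X) ∈ B := hBr (by simp [hr.le])
  obtain ⟨p, hpK, hp⟩ := c.surj 0 hB0 (by simp)
  set ε : ℝ := 2 * D / r * ‖ν - ν'‖ with hεdef
  have hε0 : 0 ≤ ε := by positivity
  have hε2 : ε * r = 2 * D * ‖ν - ν'‖ := by
    rw [hεdef]
    field_simp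
  have hcB := c.mem c0 hc0
  have hcB' := c'.mem c0 hc0
  rcases le_or_gt ε (1 / 2) with hε | hε
  · -- near
    have hnear : ‖ν - ν'‖ ≤ 1 := by
      have h1 : 2 * ‖ν - ν'‖ ≤ ε := by
        rw [hεdef]
        gcongr
        rw [le_div_iff₀ hr]
        linarith
      linarith
    have hA := c.bound hr hKr hD
    have hproj : ‖RR ν (c'.g c0) - c'.g c0‖ ≤ D * ‖ν - ν'‖ := by
      rw [RR_apply, sub_sub_cancel_left, norm_neg, norm_smul, hν, mul_one]
      have h3 : inner ℝ ν (c'.g c0) = inner ℝ (ν - ν') (c'.g c0) := by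
        rw [inner_sub_left, hcB'.2, sub_zero]
      rw [h3]
      calc ‖inner ℝ (ν - ν') (c'.g c0)‖ ≤ ‖ν - ν'‖ * ‖c'.g c0‖ := norm_inner_le_norm _ _
        _ ≤ ‖ν - ν'‖ * D := by gcongr; exact hD _ hcB'.1
        _ = D * ‖ν - ν'‖ := mul_comm _ _
    have hmain : ‖c.g c0 - RR ν (c'.g c0)‖ ≤ 2 * D / r * (C * ε) := by
      rcases hε0.eq_or_lt with h0 | hpos
      · -- `ν = ν'`
        have h1 : ‖ν - ν'‖ = 0 := by
          rw [hεdef] at h0
          rcases mul_eq_zero.1 h0.symm with h | h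
          · exact absurd h (by positivity)
          · exact h
        have h2 : ν = ν' := by
          rw [← sub_eq_zero]
          exact norm_eq_zero.1 h1
        subst h2
        have hRR : ∀ y : X, inner ℝ ν y = 0 → RR ν y = y := by
          intro y hy
          rw [RR_apply, hy]
          simp
        have hMM : ∀ x, c.g (MM c c' x) = c'.g x := by
          intro x
          have hx' : inner ℝ ν (c'.g x) = 0 := c'.orth' hr hKr x
          -- surjectivity of `c.g` on the hyperplane through `K`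
          have hlin : ∀ v, ∃ u, c.g u = c'.g v := by
            intro v
            by_cases hv : c'.g v = 0
            · exact ⟨p, by rw [hp, hv]⟩
            have hvn : 0 < ‖c'.g v‖ := norm_pos_iff.2 hv
            have h3 : (r / ‖c'.g v‖) • c'.g v ∈ B := by
              apply hBr
              rw [mem_closedBall_zero_iff, norm_smul, Real.norm_of_nonneg (by positivity),
                div_mul_cancel₀ _ hvn.ne']
            obtain ⟨u, hu, hgu⟩ := c.surj _ h3 (by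
              rw [inner_smul_right, c'.orth' hr hKr v, mul_zero])
            refine ⟨AffineMap.homothety p (‖c'.g v‖ / r) u, ?_⟩
            rw [c.hom hp, hgu, smul_smul]
            have : ‖c'.g v‖ / r * (r / ‖c'.g v‖) = 1 := by field_simp
            rw [this, one_smul]
          obtain ⟨u, hu⟩ := hlin x
          rw [MM_apply, hRR _ hx', ← hu, c.left]
        have hle : ‖MM c c' c0 - c0‖ ≤ C * 0 := by
          refine hcen (MM c c') p 0 hpK le_rfl (by norm_num) ?_ ?_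
          · rw [sub_zero, AffineMap.homothety_one]
            rintro _ ⟨y, hy, rfl⟩
            obtain ⟨h3, h4⟩ := c.mem y hy
            obtain ⟨x, hx, hgx⟩ := c'.surj _ h3 h4
            refine ⟨x, hx, ?_⟩
            apply c.inj
            rw [hMM, hgx]
            rfl
          · rw [add_zero, AffineMap.homothety_one]
            rintro _ ⟨x, hx, rfl⟩
            obtain ⟨h3, h4⟩ := c'.mem x hx
            obtain ⟨y, hy, hgy⟩ := c.surj _ h3 h4
            refine ⟨y, hy, ?_⟩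
            apply c.inj
            rw [hMM, ← hgy]
            rfl
        have h5 : MM c c' c0 = c0 := by
          rw [mul_zero] at hle
          exact sub_eq_zero.1 (norm_le_zero_iff.1 hle)
        have h6 := hMM c0
        rw [h5] at h6
        rw [hRR _ hcB'.2, h6, sub_self, norm_zero]
        positivity
      · have hup : ∀ x ∈ K, ∃ y ∈ K, RR ν (c'.g x) = c.g (AffineMap.homothety p (1 + ε) y) ∧
            MM c c' x = AffineMap.homothety p (1 + ε) y :=
          fun x hx => upper hBc hr hBr hD hν c c' hpos hε2 hp x hx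
        have hlo : ∀ y ∈ K, ∃ x ∈ K, MM c c' x = AffineMap.homothety p (1 - ε) y :=
          fun y hy => lower hBc hr hBr hD hν hν' c c' hpos (by linarith) hnear hε2 hp y hy
        have hle : ‖MM c c' c0 - c0‖ ≤ C * ε := by
          refine hcen (MM c c') p ε hpK hε0 hε ?_ ?_
          · rintro _ ⟨y, hy, rfl⟩
            obtain ⟨x, hx, h⟩ := hlo y hy
            exact ⟨x, hx, h⟩
          · rintro _ ⟨x, hx, rfl⟩
            obtain ⟨y, hy, -, h⟩ := hup x hx
            exact ⟨y, hy, h.symm⟩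
        obtain ⟨y, hy, h1, h2⟩ := hup c0 hc0
        have h3 : RR ν (c'.g c0) = c.g (MM c c' c0) := by rw [h1, h2]
        have h4 : c.g c0 - RR ν (c'.g c0) = c.g.linear (c0 - MM c c' c0) := by
          rw [h3, c.decomp c0, c.decomp (MM c c' c0), map_sub]
          abel
        rw [h4]
        calc _ ≤ 2 * D / r * ‖c0 - MM c c' c0‖ := hA _
          _ ≤ 2 * D / r * (C * ε) := by
            rw [norm_sub_rev]
            gcongr
    calc ‖c.g c0 - c'.g c0‖ ≤ ‖c.g c0 - RR ν (c'.g c0)‖ + ‖RR ν (c'.g c0) - c'.g c0‖ :=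
          norm_sub_le_norm_sub_add_norm_sub _ _ _
      _ ≤ 2 * D / r * (C * ε) + D * ‖ν - ν'‖ := add_le_add hmain hproj
      _ = (2 * D / r * (C * (2 * D / r)) + D) * ‖ν - ν'‖ := by
        rw [hεdef]
        ring
      _ ≤ (2 * D / r * (C * (2 * D / r)) + D + 2 * D * (4 * D / r)) * ‖ν - ν'‖ := by
        have h7 : 0 ≤ 2 * D * (4 * D / r) := by positivity
        exact mul_le_mul_of_nonneg_right (by linarith) (norm_nonneg _)
  · -- far
    have h1 : 1 ≤ 4 * D / r * ‖ν - ν'‖ := by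
      have : 4 * D / r * ‖ν - ν'‖ = 2 * ε := by
        rw [hεdef]
        ring
      rw [this]
      linarith
    have h2 : ‖c.g c0 - c'.g c0‖ ≤ 2 * D := by
      calc _ ≤ ‖c.g c0‖ + ‖c'.g c0‖ := norm_sub_le _ _
        _ ≤ 2 * D := by linarith [hD _ hcB.1, hD _ hcB'.1]
    calc ‖c.g c0 - c'.g c0‖ ≤ 2 * D * 1 := by linarith
      _ ≤ 2 * D * (4 * D / r * ‖ν - ν'‖) := by gcongr
      _ = (2 * D * (4 * D / r)) * ‖ν - ν'‖ := by ring
      _ ≤ (2 * D / r * (C * (2 * D / r)) + D + 2 * D * (4 * D / r)) * ‖ν - ν'‖ := by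
        have h7 : 0 ≤ 2 * D / r * (C * (2 * D / r)) := by positivity
        exact mul_le_mul_of_nonneg_right (by linarith) (norm_nonneg _)

end

/-- General form of BODY. -/
theorem body_gen (hCen : CENVStmt) (hG : GAUFStmt) {X V : Type} [NormedAddCommGroup X]
    [InnerProductSpace ℝ X] [FiniteDimensional ℝ X] [NormedAddCommGroup V]
    [InnerProductSpace ℝ V] [FiniteDimensional ℝ V]
    (B : Set X) (hBc : Convex ℝ B) (hBk : IsCompact B) (hB0 : (0 : X) ∈ interior B)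
    (H0 : Submodule ℝ X) (J : V →ₗ[ℝ] X) (I : X →ₗ[ℝ] V) (hJn : ∀ v, ‖J v‖ = ‖v‖)
    (hJH : ∀ v, J v ∈ H0) (hIJ : ∀ v, I (J v) = v) (hJs : ∀ x ∈ H0, ∃ v, J v = x)
    (hsec : ∀ ν : X, ‖ν‖ = 1 → ∃ f : X ≃ᵃ[ℝ] X,
      f '' (B ∩ (H0 : Set X)) = B ∩ ((Submodule.span ℝ {ν})ᗮ : Submodule ℝ X)) :
    ∃ (φ : V → ℝ) (b : X → X) (L β : ℝ),
      Gau φ ∧ 0 ≤ L ∧ β < 1 ∧
      (∀ ν ν', ‖ν‖ = 1 → ‖ν'‖ = 1 → ‖b ν - b ν'‖ ≤ L * ‖ν - ν'‖) ∧
      (∀ ν, ‖ν‖ = 1 → inner ℝ ν (b ν) = 0 ∧ gauge B (b ν) ≤ β) ∧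
      (∀ ν, ‖ν‖ = 1 → ∃ A : V →L[ℝ] X,
        (∀ v, inner ℝ ν (A v) = 0) ∧ ∀ v, gauge ((fun x => x - b ν) '' B) (A v) = φ v) := by
  have hJc : Continuous J := J.continuous_of_finiteDimensional
  -- bounds
  obtain ⟨D0, hD0⟩ := hBk.isBounded.exists_norm_le
  obtain ⟨r, hr, hBr⟩ : ∃ r : ℝ, 0 < r ∧ Metric.closedBall (0 : X) r ⊆ B := by
    have h1 : B ∈ 𝓝 (0 : X) := mem_interior_iff_mem_nhds.1 hB0
    exact Metric.nhds_basis_closedBall.mem_iff.1 h1
  set D : ℝ := max D0 r with hDdef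
  have hD : ∀ x ∈ B, ‖x‖ ≤ D := fun x hx => (hD0 x hx).trans (le_max_left _ _)
  have hrD : r ≤ D := le_max_right _ _
  have hDpos : 0 < D := hr.trans_le hrD
  have hB0' : (0 : X) ∈ B := interior_subset hB0
  -- the model section
  set K : Set V := J ⁻¹' B with hK
  have hKc : Convex ℝ K := hBc.linear_preimage J
  have hKr : Metric.closedBall (0 : V) r ⊆ K := by
    intro v hv
    rw [mem_closedBall_zero_iff] at hv
    apply hBr
    rw [mem_closedBall_zero_iff, hJn]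
    exact hv
  have hKD : ∀ v ∈ K, ‖v‖ ≤ D := by
    intro v hv
    rw [← hJn]
    exact hD _ hv
  have hKk : IsCompact K := by
    apply Metric.isCompact_of_isClosed_isBounded (hBk.isClosed.preimage hJc)
    exact isBounded_iff_forall_norm_le.2 ⟨D, hKD⟩
  have hKi : (0 : V) ∈ interior K := by
    apply interior_mono hKr
    exact Metric.ball_subset_interior_closedBall (by simp [hr])
  obtain ⟨c0, C, hc0i, hC, hcen⟩ := hCen V K hKc hKk ⟨0, hKi⟩
  have hc0 : c0 ∈ K := interior_subset hc0i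
  obtain ⟨ρ, hρ, hball⟩ : ∃ ρ : ℝ, 0 < ρ ∧ Metric.closedBall c0 ρ ⊆ K := by
    have h1 : K ∈ 𝓝 c0 := mem_interior_iff_mem_nhds.1 hc0i
    exact Metric.nhds_basis_closedBall.mem_iff.1 h1
  -- charts
  have hchart : ∀ ν : X, ‖ν‖ = 1 → Nonempty (Chart B K ν) := by
    intro ν hν
    obtain ⟨f, hf⟩ := hsec ν hν
    refine ⟨{ g := (f : X →ᵃ[ℝ] X).comp J.toAffineMap
              G := I.toAffineMap.comp (f.symm : X →ᵃ[ℝ] X)
              left := ?_
              mem := ?_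
              surj := ?_ }⟩
    · intro v
      change I (f.symm (f (J v))) = v
      rw [AffineEquiv.symm_apply_apply, hIJ]
    · intro v hv
      have h1 : f (J v) ∈ B ∩ ((Submodule.span ℝ {ν})ᗮ : Submodule ℝ X) := by
        rw [← hf]
        exact ⟨J v, ⟨hv, hJH v⟩, rfl⟩
      exact ⟨h1.1, (Submodule.mem_orthogonal_singleton_iff_inner_right.1 h1.2)⟩
    · intro y hy hyν
      have h1 : y ∈ B ∩ ((Submodule.span ℝ {ν})ᗮ : Submodule ℝ X) :=
        ⟨hy, Submodule.mem_orthogonal_singleton_iff_inner_right.2 hyν⟩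
      rw [← hf] at h1
      obtain ⟨x, ⟨hxB, hxH⟩, hfx⟩ := h1
      obtain ⟨v, hv⟩ := hJs x hxH
      refine ⟨v, ?_, ?_⟩
      · change J v ∈ B
        rw [hv]
        exact hxB
      · change f (J v) = y
        rw [hv, hfx]
  classical
  let b : X → X := fun ν => if h : ‖ν‖ = 1 then (Classical.choice (hchart ν h)).g c0 else 0
  have hb : ∀ (ν : X) (h : ‖ν‖ = 1), b ν = (Classical.choice (hchart ν h)).g c0 := by
    intro ν h
    exact dif_pos h
  refine ⟨gauge ((fun x => x - c0) '' K), b,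
    2 * D / r * (C * (2 * D / r)) + D + 2 * D * (4 * D / r), (1 + ρ / (2 * D))⁻¹, ?_, ?_, ?_,
    ?_, ?_, ?_⟩
  · have h1 : (fun x : V => x - c0) '' K = (fun x : V => x + c0) ⁻¹' K := by
      ext v
      constructor
      · rintro ⟨x, hx, rfl⟩
        simpa using hx
      · intro hv
        exact ⟨v + c0, hv, by simp⟩
    have h2 : Convex ℝ ((fun x : V => x - c0) '' K) := by
      rw [h1]
      exact hKc.translate_preimage_left c0
    have h3 : IsCompact ((fun x : V => x - c0) '' K) := hKk.image (by fun_prop)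
    have h4 : (0 : V) ∈ interior ((fun x : V => x - c0) '' K) := by
      rw [h1, mem_interior_iff_mem_nhds]
      have h5 : K ∈ 𝓝 ((0 : V) + c0) := by
        rw [zero_add]
        exact mem_interior_iff_mem_nhds.1 hc0i
      exact (by fun_prop : Continuous (fun x : V => x + c0)).continuousAt.preimage_mem_nhds h5
    exact (hG V _ h2 h3 h4).1
  · positivity
  · apply inv_lt_one_of_one_lt₀
    have : 0 < ρ / (2 * D) := by positivity
    linarith
  · intro ν ν' hν hν'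
    rw [hb ν hν, hb ν' hν']
    exact lipschitz hBc hr hBr hD hrD hKr hC hc0 hcen hν hν' _ _
  · intro ν hν
    rw [hb ν hν]
    exact ⟨Chart.orth' _ hr hKr _, Chart.gauge_le _ hB0' hKD hDpos hρ c0 hc0 hball⟩
  · intro ν hν
    refine ⟨LinearMap.toContinuousLinearMap (Classical.choice (hchart ν hν)).g.linear, ?_, ?_⟩
    · intro v
      exact Chart.orth _ hr hKr v
    · intro v
      rw [hb ν hν]
      exact Chart.gauge_eq _ hr hKr c0 v

/-- **BODY** -/
theorem BODY (hCen : CENVStmt) (hG : GAUFStmt) : BODYStmt := by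
  intro k hk B hBc hBk hB0 hsec
  have hfact : Fact (Module.finrank ℝ (EuclideanSpace ℝ (Fin (k + 1))) = k + 1) := ⟨by simp⟩
  have hfin : ∀ ν : EuclideanSpace ℝ (Fin (k + 1)), ‖ν‖ = 1 →
      Module.finrank ℝ (Submodule.span ℝ {ν})ᗮ = k := by
    intro ν hν
    apply Submodule.finrank_orthogonal_span_singleton
    intro h
    rw [h, norm_zero] at hν
    exact zero_ne_one hν
  -- the base hyperplane
  have hen : ‖(EuclideanSpace.single (0 : Fin (k + 1)) (1 : ℝ))‖ = 1 := by simp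
  generalize EuclideanSpace.single (0 : Fin (k + 1)) (1 : ℝ) = e at hen
  set H0 : Submodule ℝ (EuclideanSpace ℝ (Fin (k + 1))) := (Submodule.span ℝ {e})ᗮ with hH0
  let ob : OrthonormalBasis (Fin k) ℝ H0 :=
    (stdOrthonormalBasis ℝ H0).reindex (finCongr (hfin e hen))
  let J : EuclideanSpace ℝ (Fin k) →ₗ[ℝ] EuclideanSpace ℝ (Fin (k + 1)) :=
    H0.subtype ∘ₗ ob.repr.symm.toLinearEquiv.toLinearMap
  let I : EuclideanSpace ℝ (Fin (k + 1)) →ₗ[ℝ] EuclideanSpace ℝ (Fin k) :=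
    ob.repr.toLinearEquiv.toLinearMap ∘ₗ
    (H0.orthogonalProjectionOnto : EuclideanSpace ℝ (Fin (k + 1)) →L[ℝ] H0).toLinearMap
  have hJn : ∀ v, ‖J v‖ = ‖v‖ := by
    intro v
    change ‖((ob.repr.symm v : H0) : EuclideanSpace ℝ (Fin (k + 1)))‖ = ‖v‖
    rw [Submodule.norm_coe, LinearIsometryEquiv.norm_map]
  have hJH : ∀ v, J v ∈ H0 := fun v => (ob.repr.symm v).2
  have hIJ : ∀ v, I (J v) = v := by
    intro v
    change ob.repr (H0.orthogonalProjectionOnto
      ((ob.repr.symm v : H0) : EuclideanSpace ℝ (Fin (k + 1)))) = v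
    rw [Submodule.orthogonalProjectionOnto_mem_subspace_eq_self,
      LinearIsometryEquiv.apply_symm_apply]
  have hJs : ∀ x ∈ H0, ∃ v, J v = x := by
    intro x hx
    refine ⟨ob.repr ⟨x, hx⟩, ?_⟩
    change ((ob.repr.symm (ob.repr ⟨x, hx⟩) : H0) : EuclideanSpace ℝ (Fin (k + 1))) = x
    rw [LinearIsometryEquiv.symm_apply_apply]
  exact body_gen hCen hG B hBc hBk hB0 H0 J I hJn hJH hIJ hJs
    (fun ν hν => hsec H0 _ (hfin e hen) (hfin ν hν))

end Pool.Agent.BAN.H63
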