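import Pool.Agent.Helper10_BAN.Stmt

set_option autoImplicit false

/-!
# Squad BAN, module DEG: degree one
-/

namespace Pool.Agent.BAN.H63

open MeasureTheory Filter Topology Set
open scoped NNReal

section
variable {E : Type} [NormedAddCommGroup E] [InnerProductSpace ℝ E] [FiniteDimensional ℝ E]
  [MeasurableSpace E] [BorelSpace E]

/-- Gaussians are integrable for every Haar measure. -/
theorem integrable_gauss (μ : Measure E) [μ.IsAddHaarMeasure] {b : ℝ} (hb : 0 < b) :
    Integrable (fun x : E => Real.exp (-(b * ‖x‖ ^ 2))) μ := by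
  have h1 : Integrable (fun x : E => Real.exp (-(b * ‖x‖ ^ 2))) (volume : Measure E) := by
    have h2 := GaussianFourier.integrable_cexp_neg_mul_sq_norm_add (V := E) (b := (b : ℂ))
      (by simpa using hb) 0 0
    have h3 := h2.norm
    refine h3.congr (Filter.Eventually.of_forall fun x => ?_)
    simp only [zero_mul, add_zero]
    rw [Complex.norm_exp]
    congr 1
    have : (-(b : ℂ) * (‖x‖ : ℂ) ^ 2) = ((-(b * ‖x‖ ^ 2) : ℝ) : ℂ) := by
      push_cast
      ring
    rw [this, Complex.ofReal_re]
  rw [Measure.isAddLeftInvariant_eq_smul μ (volume : Measure E)]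
  exact h1.smul_measure_nnreal

/-- Integration against the image of a density. -/
theorem integral_mapDensity {W : Type} [NormedAddCommGroup W] [NormedSpace ℝ W]
    (μ : Measure E) (F : E → E) (hF : Measurable F) (a : E → ℝ) (ha : Measurable a)
    (ha0 : ∀ x, 0 ≤ a x) (h : E → W) (hh : StronglyMeasurable h) :
    ∫ y, h y ∂((μ.withDensity fun x => ENNReal.ofReal (a x)).map F) =
      ∫ x, a x • h (F x) ∂μ := by
  rw [integral_map hF.aemeasurable hh.aestronglyMeasurable,
    integral_withDensity_eq_integral_toReal_smul ha.ennreal_ofReal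
      (Filter.Eventually.of_forall fun x => ENNReal.ofReal_lt_top)]
  refine integral_congr_ae (Filter.Eventually.of_forall fun x => ?_)
  simp only
  rw [ENNReal.toReal_ofReal (ha0 x)]

end

/-- **DEG** -/
theorem DEG (hC : DEGCStmt) : DEGStmt := by
  intro E _ _ _ _ _ μ _ F L c hF hF0 hc hhom g hg hgc
  have hmain := hC E μ F L c hF hF0 hc hhom
  have hFc : Continuous F := hF.continuous
  -- the Jacobian
  set J : E → ℝ := fun x => (fderiv ℝ F x).det with hJ
  have hJm : Measurable J :=
    ContinuousLinearMap.continuous_det.measurable.comp (measurable_fderiv ℝ F)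
  obtain ⟨CJ, hCJ⟩ : ∃ C : ℝ, ∀ x, |J x| ≤ C := by
    have hproper : ProperSpace (E →L[ℝ] E) := FiniteDimensional.proper ℝ (E →L[ℝ] E)
    obtain ⟨C, hC⟩ := (isCompact_closedBall (0 : E →L[ℝ] E) (L : ℝ)).exists_bound_of_continuousOn
      (f := fun A : E →L[ℝ] E => A.det) ContinuousLinearMap.continuous_det.continuousOn
    refine ⟨C, fun x => ?_⟩
    have h1 : fderiv ℝ F x ∈ Metric.closedBall (0 : E →L[ℝ] E) (L : ℝ) := by
      rw [mem_closedBall_zero_iff]
      exact norm_fderiv_le_of_lipschitz ℝ hF
    exact hC _ h1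
  have hF1 : ∀ x, c * ‖x‖ ≤ ‖F x‖ := by
    intro x
    have := hhom 1 zero_le_one le_rfl x
    simpa using this
  -- the weight
  set w : E → ℝ := fun x => Real.exp (-‖F x‖ ^ 2) with hw
  have hwc : Continuous w := by
    rw [hw]
    fun_prop
  have hw0 : ∀ x, 0 ≤ w x := fun x => (Real.exp_pos _).le
  have hwi : Integrable w μ := by
    refine (integrable_gauss μ (b := c ^ 2) (by positivity)).mono'
      hwc.aestronglyMeasurable (Filter.Eventually.of_forall fun x => ?_)
    rw [Real.norm_of_nonneg (hw0 x)]
    apply Real.exp_le_exp.2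
    have h1 := hF1 x
    have h2 : 0 ≤ c * ‖x‖ := by positivity
    have h3 : (c * ‖x‖) ^ 2 ≤ ‖F x‖ ^ 2 := pow_le_pow_left₀ h2 h1 2
    have h4 : (c * ‖x‖) ^ 2 = c ^ 2 * ‖x‖ ^ 2 := by ring
    linarith
  have hbd : ∀ b : E → ℝ, Measurable b → (∀ x, |b x| ≤ CJ) → Integrable (fun x => w x * b x) μ := by
    intro b hb1 hb2
    exact hwi.mul_bdd hb1.aestronglyMeasurable (Filter.Eventually.of_forall fun x => hb2 x)
  set ap : E → ℝ := fun x => w x * max (J x) 0 with hap
  set am : E → ℝ := fun x => w x * max (-J x) 0 with ham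
  set ag : E → ℝ := fun x => Real.exp (-‖x‖ ^ 2) with hag
  have hCJ0 : 0 ≤ CJ := (abs_nonneg _).trans (hCJ 0)
  have hmax1 : ∀ x, |max (J x) 0| ≤ CJ := by
    intro x
    rw [abs_of_nonneg (le_max_right _ _)]
    exact max_le ((le_abs_self _).trans (hCJ x)) hCJ0
  have hmax2 : ∀ x, |max (-J x) 0| ≤ CJ := by
    intro x
    rw [abs_of_nonneg (le_max_right _ _)]
    exact max_le ((neg_le_abs _).trans (hCJ x)) hCJ0
  have hapm : Measurable ap := hwc.measurable.mul (hJm.max measurable_const)
  have hamm : Measurable am := hwc.measurable.mul (hJm.neg.max measurable_const)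
  have hagm : Measurable ag := by
    have : Continuous ag := by
      rw [hag]
      fun_prop
    exact this.measurable
  have hap0 : ∀ x, 0 ≤ ap x := fun x => mul_nonneg (hw0 x) (le_max_right _ _)
  have ham0 : ∀ x, 0 ≤ am x := fun x => mul_nonneg (hw0 x) (le_max_right _ _)
  have hag0 : ∀ x, 0 ≤ ag x := fun x => (Real.exp_pos _).le
  have hapi : Integrable ap μ := hbd _ (hJm.max measurable_const) hmax1
  have hami : Integrable am μ := hbd _ (hJm.neg.max measurable_const) hmax2
  have hagi : Integrable ag μ := by
    have := integrable_gauss μ (b := 1) one_pos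
    simpa using this
  -- the measures
  set νp : Measure E := (μ.withDensity fun x => ENNReal.ofReal (ap x)).map F with hνp
  set νm : Measure E := (μ.withDensity fun x => ENNReal.ofReal (am x)).map F with hνm
  set νg : Measure E := (μ.withDensity fun x => ENNReal.ofReal (ag x)).map id with hνg
  have fp' : IsFiniteMeasure (μ.withDensity fun x => ENNReal.ofReal (ap x)) :=
    isFiniteMeasure_withDensity_ofReal hapi.2
  have fm' : IsFiniteMeasure (μ.withDensity fun x => ENNReal.ofReal (am x)) :=
    isFiniteMeasure_withDensity_ofReal hami.2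
  have fg' : IsFiniteMeasure (μ.withDensity fun x => ENNReal.ofReal (ag x)) :=
    isFiniteMeasure_withDensity_ofReal hagi.2
  have fp : IsFiniteMeasure νp := by rw [hνp]; infer_instance
  have fm : IsFiniteMeasure νm := by rw [hνm]; infer_instance
  have fg : IsFiniteMeasure νg := by rw [hνg]; infer_instance
  -- characteristic functions
  have hchar : charFun νp = charFun (νm + νg) := by
    funext ξ
    rw [charFun_apply, charFun_apply]
    have hcont : Continuous (fun y : E => Complex.exp ((inner ℝ y ξ : ℝ) * Complex.I)) := by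
      fun_prop
    have hnorm : ∀ y : E, ‖Complex.exp ((inner ℝ y ξ : ℝ) * Complex.I)‖ = 1 := by
      intro y
      exact Complex.norm_exp_ofReal_mul_I _
    have hint : ∀ ν : Measure E, IsFiniteMeasure ν →
        Integrable (fun y : E => Complex.exp ((inner ℝ y ξ : ℝ) * Complex.I)) ν := by
      intro ν hν
      refine Integrable.of_bound hcont.aestronglyMeasurable 1
        (Filter.Eventually.of_forall fun y => (hnorm y).le)
    rw [integral_add_measure (hint νm fm) (hint νg fg), hνp, hνm, hνg,
      integral_mapDensity μ F hFc.measurable ap hapm hap0 _ hcont.stronglyMeasurable,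
      integral_mapDensity μ F hFc.measurable am hamm ham0 _ hcont.stronglyMeasurable,
      integral_mapDensity μ id measurable_id ag hagm hag0 _ hcont.stronglyMeasurable]
    have hFcont : Continuous (fun x : E => Complex.exp ((inner ℝ (F x) ξ : ℝ) * Complex.I)) :=
      hcont.comp hFc
    have hsm : ∀ a : E → ℝ, Integrable a μ →
        Integrable (fun x => a x • Complex.exp ((inner ℝ (F x) ξ : ℝ) * Complex.I)) μ := by
      intro a ha
      refine ha.smul_bdd 1 hFcont.aestronglyMeasurable
        (Filter.Eventually.of_forall fun y => (hnorm _).le)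
    have h1 := hmain ξ
    have h2 : ∫ x, Complex.exp (-((‖F x‖ ^ 2 : ℝ) : ℂ) +
        Complex.I * ((inner ℝ ξ (F x) : ℝ) : ℂ)) * (((fderiv ℝ F x).det : ℝ) : ℂ) ∂μ =
        ∫ x, ap x • Complex.exp ((inner ℝ (F x) ξ : ℝ) * Complex.I) ∂μ -
        ∫ x, am x • Complex.exp ((inner ℝ (F x) ξ : ℝ) * Complex.I) ∂μ := by
      rw [← integral_sub (hsm ap hapi) (hsm am hami)]
      refine integral_congr_ae (Filter.Eventually.of_forall fun x => ?_)
      simp only
      rw [← sub_smul]
      have h3 : ap x - am x = w x * J x := by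
        rw [hap, ham]
        simp only
        rw [← mul_sub]
        congr 1
        rcases le_total 0 (J x) with h | h
        · rw [max_eq_left h, max_eq_right (by linarith)]
          ring
        · rw [max_eq_right h, max_eq_left (by linarith)]
          ring
      have h5 : J x = (fderiv ℝ F x).det := rfl
      rw [h3, h5, Complex.exp_add, Complex.real_smul, Complex.ofReal_mul, hw]
      simp only
      rw [Complex.ofReal_exp, real_inner_comm ξ (F x)]
      push_cast
      ring_nf
    have h4 : ∫ x, Complex.exp (-((‖x‖ ^ 2 : ℝ) : ℂ) + Complex.I * ((inner ℝ ξ x : ℝ) : ℂ)) ∂μ =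
        ∫ x, ag x • Complex.exp ((inner ℝ (id x) ξ : ℝ) * Complex.I) ∂μ := by
      refine integral_congr_ae (Filter.Eventually.of_forall fun x => ?_)
      simp only [id]
      rw [Complex.exp_add, Complex.real_smul, hag]
      simp only
      rw [Complex.ofReal_exp, real_inner_comm ξ x]
      push_cast
      ring_nf
    rw [h2, h4] at h1
    rw [← h1]
    ring
  have hmeas : νp = νm + νg := Measure.ext_of_charFun hchar
  -- test against g exp(|y|^2)
  set h : E → ℝ := fun y => g y * Real.exp (‖y‖ ^ 2) with hh
  have hhc : Continuous h := by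
    rw [hh]
    fun_prop
  have hhs : HasCompactSupport h := hgc.mul_right
  have hint : ∀ ν : Measure E, IsFiniteMeasure ν → Integrable h ν := by
    intro ν hν
    exact hhc.integrable_of_hasCompactSupport hhs
  obtain ⟨Ch, hCh⟩ := hhc.bounded_above_of_compact_support hhs
  have h1 : ∫ y, h y ∂νp = ∫ y, h y ∂νm + ∫ y, h y ∂νg := by
    rw [hmeas, integral_add_measure (hint νm fm) (hint νg fg)]
  rw [hνp, hνm, hνg,
      integral_mapDensity μ F hFc.measurable ap hapm hap0 _ hhc.stronglyMeasurable,
      integral_mapDensity μ F hFc.measurable am hamm ham0 _ hhc.stronglyMeasurable,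
      integral_mapDensity μ id measurable_id ag hagm hag0 _ hhc.stronglyMeasurable] at h1
  have hsm : ∀ a : E → ℝ, Integrable a μ → Integrable (fun x => a x • h (F x)) μ := by
    intro a ha
    exact ha.smul_bdd Ch (hhc.comp hFc).aestronglyMeasurable
      (Filter.Eventually.of_forall fun y => hCh _)
  have h2 : ∫ x, g (F x) * (fderiv ℝ F x).det ∂μ =
      ∫ x, ap x • h (F x) ∂μ - ∫ x, am x • h (F x) ∂μ := by
    rw [← integral_sub (hsm ap hapi) (hsm am hami)]
    refine integral_congr_ae (Filter.Eventually.of_forall fun x => ?_)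
    simp only
    rw [← sub_smul]
    have h3 : ap x - am x = w x * J x := by
      rw [hap, ham]
      simp only
      rw [← mul_sub]
      congr 1
      rcases le_total 0 (J x) with h | h
      · rw [max_eq_left h, max_eq_right (by linarith)]
        ring
      · rw [max_eq_right h, max_eq_left (by linarith)]
        ring
    rw [h3, smul_eq_mul, hh, hw]
    simp only
    have h5 : Real.exp (-‖F x‖ ^ 2) * Real.exp (‖F x‖ ^ 2) = 1 := by
      rw [← Real.exp_add]
      simp
    calc g (F x) * (fderiv ℝ F x).det =
        (Real.exp (-‖F x‖ ^ 2) * Real.exp (‖F x‖ ^ 2)) * (g (F x) * J x) := by rw [h5, one_mul]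
      _ = _ := by ring
  have h6 : ∫ x, g x ∂μ = ∫ x, ag x • h (id x) ∂μ := by
    refine integral_congr_ae (Filter.Eventually.of_forall fun x => ?_)
    simp only [id]
    rw [smul_eq_mul, hh, hag]
    simp only
    have h5 : Real.exp (-‖x‖ ^ 2) * Real.exp (‖x‖ ^ 2) = 1 := by
      rw [← Real.exp_add]
      simp
    calc g x = (Real.exp (-‖x‖ ^ 2) * Real.exp (‖x‖ ^ 2)) * g x := by rw [h5, one_mul]
      _ = _ := by ring
  rw [h2, h6, h1]
  ring

end Pool.Agent.BAN.H63
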